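import Mathlib
import Pool.Agent.H6.Idio

namespace Pool.Agent.Results.MP_15d263_co.All

/-- The Euclidean plane. -/
abbrev E := EuclideanSpace ℝ (Fin 2)

/-- The point with integer coordinates `(a, b)`. -/
noncomputable def pt (a b : ℤ) : E := !₂[a, b]

/-- The closed axis-parallel unit square with centre `c`. -/
def Sq (c : E) : Set E := {z | ∀ i, |z i - c i| ≤ 1 / 2}

/-- The prototile `T(x,y)`. -/
noncomputable def T (x y : ℤ) : Set E := Sq (pt 0 0) ∪ Sq (pt x y)

/-- A countable family of closed sets covering the plane with pairwise disjoint interiors. -/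
def IsTiling (S : Set (Set E)) : Prop :=
  S.Countable ∧ (∀ t ∈ S, IsClosed t) ∧ ⋃₀ S = Set.univ ∧
    S.Pairwise fun s t => Disjoint (interior s) (interior t)

/-- The isometry `g` maps the family `S` onto itself. -/
def IsSym (S : Set (Set E)) (g : E ≃ᵢ E) : Prop := (fun t => g '' t) '' S = S

/-- `S` is an idiomeric tiling with prototile `P`: monohedral, isohedral, and the induced tile
group of every tile is transitive on its components. -/
def Idiomeric (S : Set (Set E)) (P : Set E) : Prop :=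
  IsTiling S ∧ (∀ t ∈ S, ∃ g : E ≃ᵢ E, g '' P = t) ∧
    (∀ s ∈ S, ∀ t ∈ S, ∃ g, IsSym S g ∧ g '' s = t) ∧
    ∀ t ∈ S, ∀ a ∈ t, ∀ b ∈ t, ∃ g, IsSym S g ∧ g '' t = t ∧
      g '' connectedComponentIn t a = connectedComponentIn t b

/-- Every tile is a union of two squares of the regular tiling centred at `ℤ²`. -/
def OnGrid (S : Set (Set E)) : Prop :=
  ∀ t ∈ S, ∃ a b c d : ℤ, t = Sq (pt a b) ∪ Sq (pt c d)

theorem result (x y : ℤ) (h : 2 ≤ max |x| |y|) : (∃ S, Idiomeric S (T x y)) ∧
    ((∃ S, Idiomeric S (T x y) ∧ OnGrid S) ↔ Odd x ∨ Odd y) := by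
  have e : T x y = Pool.Agent.H6.Idio.T x y := by
    simp only [T, pt, Int.cast_zero]; rfl
  rw [e]
  exact Pool.Agent.H6.Idio.main x y h

end Pool.Agent.Results.MP_15d263_co.All
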